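import Pool.Agent.H912.DY.R13

/-!
# The eventual stability conjecture for 100% of the rational functions

Let `f = p / q` be a rational function of degree `d ≥ 2` over a number field `K`, and let `F_n / G_n` be
its `n`-th iterate. The pair `(f, α)` is stable if `F_n - α G_n` is irreducible over `K` for all `n ≥ 1`,
and it is eventually stable if the number of the irreducible factors of `F_n - α G_n` is bounded for
`n → ∞`. Jones and Levy conjecture that `(f, α)` is eventually stable for all `α` which are not periodic.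

We prove this for 100% of the functions `f` and ALL `α ∈ K` (for these `f` no point of `K` is periodic).
Moreover, for every fixed `α ∈ K` the pair `(f, α)` is stable for 100% of the functions `f`; and for
100% of the functions `f` there are a prime `v` of `K` over a large rational prime and a `v`-adic unit
`β` such that `(f, α)` is stable for all `v`-integral `α ∈ K` which are not congruent to `β` modulo `v`.

The prime `v` is a simple pole of the constant coefficient of `p`, all other coefficients of `p` and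
`q` are units at `v`, and `β` is `f (∞)`. Let `A = |p_0|`. If a point `x` of the backward orbit of `α`
is not in the discs `|x| ≥ A` and `|x - β| < 1`, then the next points satisfy
`|x_{k + 1}| ^ d = A / |x_k|`, so that the ramification index at `v` grows at least as
`d ^ k` divided by a constant. The two discs are interchanged by `f`, and the second iterate is a
contraction; so a branch of the backward orbit of `α` can stay in them for a long time only if `α` is
close to a periodic point of period two, and the time is bounded for every `α ∈ K`, since there are no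
such points in `K`, by a simple pole of the leading coefficient of `p` at another prime.
-/

set_option autoImplicit false

namespace Pool.Agent.Results.MP_870eb4_nt.StableMaps

open Polynomial NumberField Filter Topology IsDedekindDomain

/-- The polynomial `r` of degree at most `d`, homogenized and evaluated at `F`, `G`:
`∑ r_i F ^ i G ^ (d - i)`. -/
noncomputable def homog {K : Type} [Field K] (d : ℕ) (r F G : K[X]) : K[X] :=
  ∑ i ∈ Finset.range (d + 1), C (r.coeff i) * F ^ i * G ^ (d - i)

/-- The numerator `F_n` and the denominator `G_n` of the `n`-th iterate of `p / q`: `F_0 = X`,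
`G_0 = 1`, and `F_{n + 1}`, `G_{n + 1}` are `p` and `q` at `F_n / G_n`, multiplied by `G_n ^ d`. -/
noncomputable def iter {K : Type} [Field K] (d : ℕ) (p q : K[X]) : ℕ → K[X] × K[X]
  | 0 => (X, 1)
  | n + 1 => (homog d p (iter d p q n).1 (iter d p q n).2,
      homog d q (iter d p q n).1 (iter d p q n).2)

/-- The pair `(f, α)`, `f = p / q`, is stable: for all `n ≥ 1` the numerator `F_n` and the denominator
`G_n` of the `n`-th iterate are coprime, and `F_n - α G_n` is irreducible of degree `d ^ n`. -/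
def Stable {K : Type} [Field K] (d : ℕ) (p q : K[X]) (α : K) : Prop :=
  ∀ n : ℕ, 1 ≤ n → IsCoprime (iter d p q n).1 (iter d p q n).2 ∧
    Irreducible ((iter d p q n).1 - C α * (iter d p q n).2) ∧
    ((iter d p q n).1 - C α * (iter d p q n).2).natDegree = d ^ n

/-- The pair `(f, α)`, `f = p / q`, is eventually stable: the numbers of the irreducible factors of the
numerators `F_n - α G_n ≠ 0` (with multiplicities) are bounded. -/
def EventuallyStable {K : Type} [Field K] (d : ℕ) (p q : K[X]) (α : K) : Prop :=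
  ∃ B : ℕ, ∀ n : ℕ, IsCoprime (iter d p q n).1 (iter d p q n).2 ∧
    (iter d p q n).1 - C α * (iter d p q n).2 ≠ 0 ∧
    Multiset.card (UniqueFactorizationMonoid.factors
      ((iter d p q n).1 - C α * (iter d p q n).2)) ≤ B

/-- The map `p / q` is stable for all `v`-integral `α` outside of one residue class modulo a prime `v`
over a rational prime `l ≥ Y`. -/
def StableForMost {K : Type} [Field K] [NumberField K] (Y d : ℕ) (p q : K[X]) : Prop :=
  ∃ (v : HeightOneSpectrum (𝓞 K)) (l : ℕ) (β : K), l.Prime ∧ Y ≤ l ∧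
    v.valuation K (l : K) < 1 ∧ v.valuation K β = 1 ∧
    ∀ α : K, v.valuation K α ≤ 1 → v.valuation K (α - β) = 1 → Stable d p q α

/-- The coefficient number `k`, a quotient of two integers of `K`. The coefficients `(i, 0)` are those
of the numerator `p`, and the coefficients `(i, 1)` are those of the denominator `q`. -/
noncomputable def coef {K : Type} [Field K] {d : ℕ} (c : (Fin (d + 1) × Fin 2) × Fin 2 → 𝓞 K)
    (k : Fin (d + 1) × Fin 2) : K :=
  algebraMap (𝓞 K) K (c (k, 0)) / algebraMap (𝓞 K) K (c (k, 1))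

/-- The numerator `p` (`s = 0`) or denominator `q` (`s = 1`) of the map. -/
noncomputable def poly {K : Type} [Field K] {d : ℕ} (c : (Fin (d + 1) × Fin 2) × Fin 2 → 𝓞 K)
    (s : Fin 2) : K[X] :=
  ∑ i : Fin (d + 1), C (coef c (i, s)) * X ^ (i : ℕ)

/-- The denominators of the coefficients are not zero, and `p / q` is a rational map of degree `d`. -/
def IsMap {K : Type} [Field K] {d : ℕ} (c : (Fin (d + 1) × Fin 2) × Fin 2 → 𝓞 K) : Prop :=
  (∀ k, c (k, 1) ≠ 0) ∧ IsCoprime (poly c 0) (poly c 1) ∧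
    max (poly c 0).natDegree (poly c 1).natDegree = d

/-- All numerators and denominators have coordinates at most `X` in absolute value with respect to
the integral basis `ω`. -/
def box {K : Type} [Field K] {J : Type} (ω : Module.Basis J ℤ (𝓞 K)) (d X : ℕ) :
    Set ((Fin (d + 1) × Fin 2) × Fin 2 → 𝓞 K) :=
  {c | ∀ k j, |ω.repr (c k) j| ≤ (X : ℤ)}

lemma coeff_poly {K : Type} [Field K] {d : ℕ} (c : (Fin (d + 1) × Fin 2) × Fin 2 → 𝓞 K)
    (s : Fin 2) (j : Fin (d + 1)) : (poly c s).coeff j = coef c (j, s) := by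
  unfold poly
  rw [finsetSum_coeff]
  simp only [coeff_C_mul, coeff_X_pow]
  rw [Finset.sum_eq_single j]
  · rw [if_pos rfl, mul_one]
  · intro i _ hij
    rw [if_neg (fun h => hij (Fin.ext h.symm)), mul_zero]
  · exact fun h => absurd (Finset.mem_univ _) h

lemma coeff_poly_of_lt {K : Type} [Field K] {d : ℕ} (c : (Fin (d + 1) × Fin 2) × Fin 2 → 𝓞 K)
    (s : Fin 2) {j : ℕ} (hj : d < j) : (poly c s).coeff j = 0 := by
  unfold poly
  rw [finsetSum_coeff]
  refine Finset.sum_eq_zero fun i _ => ?_
  rw [coeff_C_mul, coeff_X_pow, if_neg, mul_zero]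
  intro h
  have := i.2
  omega

lemma natDegree_poly_le {K : Type} [Field K] {d : ℕ} (c : (Fin (d + 1) × Fin 2) × Fin 2 → 𝓞 K)
    (s : Fin 2) : (poly c s).natDegree ≤ d := by
  rw [natDegree_le_iff_coeff_eq_zero]
  exact fun j hj => coeff_poly_of_lt c s hj

lemma val_coef {K : Type} [Field K] [NumberField K] {d : ℕ}
    {c : (Fin (d + 1) × Fin 2) × Fin 2 → 𝓞 K} {v : HeightOneSpectrum (𝓞 K)}
    {k : Fin (d + 1) × Fin 2} (h : ∀ l, c (k, l) ∉ v.asIdeal) :
    v.valuation K (coef c k) = 1 := by
  unfold coef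
  rw [map_div₀, Pool.Agent.H912.DY.val_unit v (h 0), Pool.Agent.H912.DY.val_unit v (h 1), div_one]

/-- a simple pole of the coefficient number `j` of the numerator -/
lemma of_pole {K : Type} [Field K] [NumberField K] {d : ℕ}
    {c : (Fin (d + 1) × Fin 2) × Fin 2 → 𝓞 K} {v : HeightOneSpectrum (𝓞 K)} {j : Fin (d + 1)}
    (h : Pool.Agent.H912.DY.SimplePole ((j, (0 : Fin 2)), (1 : Fin 2)) c v) :
    (∀ k, c (k, 1) ≠ 0) ∧ Pool.Agent.H912.DY.PoleQ v (poly c 0) (poly c 1) d j := by
  obtain ⟨h1, h2, h3⟩ := h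
  have hpole : v.valuation K (algebraMap (𝓞 K) K (c ((j, 0), 1))) = WithZero.exp (-1 : ℤ) :=
    Pool.Agent.H912.DY.val_simple v h1 h2
  have hj' : v.valuation K (coef c (j, 0)) = WithZero.exp 1 := by
    unfold coef
    rw [map_div₀, hpole, Pool.Agent.H912.DY.val_unit v (h3 ((j, 0), 0) (by simp)),
      WithZero.exp_neg, one_div, inv_inv]
  have hi : ∀ k : Fin (d + 1) × Fin 2, k ≠ (j, 0) → v.valuation K (coef c k) = 1 := by
    intro k hk
    exact val_coef fun l => h3 (k, l) (fun h => hk (Prod.ext_iff.1 h).1)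
  refine ⟨fun k => ?_, natDegree_poly_le c 0, natDegree_poly_le c 1, ?_, ?_, ?_⟩
  · by_cases hk : k = (j, 0)
    · subst hk
      intro h
      apply h2
      rw [h]
      exact Ideal.zero_mem _
    · intro h
      apply h3 (k, 1) (fun h' => hk (Prod.ext_iff.1 h').1)
      rw [h]
      exact Ideal.zero_mem _
  · rw [coeff_poly]
    exact hj'
  · intro i hi' hid
    have := coeff_poly c 0 ⟨i, by omega⟩
    simp only at this
    rw [this]
    refine hi _ fun h => hid ?_
    exact congrArg Fin.val (Prod.ext_iff.1 h).1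
  · intro i hi'
    have := coeff_poly c 1 ⟨i, by omega⟩
    simp only at this
    rw [this]
    refine hi _ fun h => ?_
    have h5 : (1 : Fin 2) = 0 := (Prod.ext_iff.1 h).2
    exact absurd h5 (by decide)

lemma iter_eq {K : Type} [Field K] (d : ℕ) (p q : K[X]) (n : ℕ) :
    iter d p q n = Pool.Agent.H912.DY.iter d p q n := by
  induction n with
  | zero => rfl
  | succ n ih =>
    unfold iter Pool.Agent.H912.DY.iter
    rw [ih]
    rfl

/-- stability at a simple pole -/
theorem stable_of_pole {K : Type} [Field K] [NumberField K] {d : ℕ} (hd : 2 ≤ d) {p q : K[X]}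
    {v : HeightOneSpectrum (𝓞 K)} (h : Pool.Agent.H912.DY.PoleQ v p q d 0) {α : K}
    (h1 : v.valuation K α ≤ 1) (h2 : v.valuation K (p.coeff d - α * q.coeff d) = 1) :
    Stable d p q α := by
  intro n hn
  rw [iter_eq]
  exact h.irreducible hd h1 h2 hn

/-- stability for almost all points at a simple pole -/
theorem stableForMost_of_pole {K : Type} [Field K] [NumberField K] {d Y l : ℕ} (hd : 2 ≤ d)
    {p q : K[X]} {v : HeightOneSpectrum (𝓞 K)} (hl : l.Prime) (hY : Y ≤ l)
    (hlv : v.valuation K (l : K) < 1) (h : Pool.Agent.H912.DY.PoleQ v p q d 0) :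
    StableForMost Y d p q := by
  have hqd := h.unitq d le_rfl
  have hpd := h.unit d le_rfl (by omega)
  have hqd0 : q.coeff d ≠ 0 := by
    intro h1
    rw [h1, map_zero] at hqd
    exact zero_ne_one hqd
  refine ⟨v, l, p.coeff d / q.coeff d, hl, hY, hlv, by rw [map_div₀, hpd, hqd, div_one],
    fun α h1 h2 => stable_of_pole hd h h1 ?_⟩
  have h3 : p.coeff d - α * q.coeff d = -((α - p.coeff d / q.coeff d) * q.coeff d) := by
    rw [sub_mul, div_mul_cancel₀ _ hqd0]
    ring
  rw [h3, Valuation.map_neg, map_mul, h2, hqd, mul_one]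

/-- **Eventual stability for 100% of the rational functions and all points.** Let `K` be a number field
with integral basis `ω`, let `d ≥ 2`, let `α ∈ K`, and let `Y` be arbitrary. 100% of the data `c` (in the
boxes given by `ω`) define a rational function `f = p / q` of degree `d` over `K` such that

* `(f, α')` is eventually stable for all `α' ∈ K`;
* `(f, α)` is stable;
* `(f, α')` is stable for all `α'` in `K` which are integral at `v` and outside of one residue class
  modulo `v`, where `v` is a prime of `K` over a rational prime `l ≥ Y`. -/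
theorem result {K : Type} [Field K] [NumberField K] {J : Type} [Fintype J]
    (ω : Module.Basis J ℤ (𝓞 K)) (d : ℕ) (hd : 2 ≤ d) (α : K) (Y : ℕ) :
    Tendsto (fun X : ℕ => ({c | c ∈ box ω d X ∧ IsMap c ∧
      (∀ α' : K, EventuallyStable d (poly c 0) (poly c 1) α') ∧
      Stable d (poly c 0) (poly c 1) α ∧
      StableForMost Y d (poly c 0) (poly c 1)}.ncard : ℝ) / ((box ω d X).ncard : ℝ))
      atTop (𝓝 1) := by
  obtain ⟨s, t, ht, hst⟩ := IsFractionRing.div_surjective (A := 𝓞 K) α
  have ht0 : t ≠ 0 := nonZeroDivisors.ne_zero ht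
  refine Pool.Agent.H912.DY.tendsto_one (ι := (Fin (d + 1) × Fin 2) × Fin 2) ω
    (T := {c | IsMap c ∧ (∀ α' : K, EventuallyStable d (poly c 0) (poly c 1) α') ∧
      Stable d (poly c 0) (poly c 1) α ∧ StableForMost Y d (poly c 0) (poly c 1)}) ?_
  intro ε hε
  have hε2 : (0 : ℝ) < ε / 2 := by positivity
  obtain ⟨X₀, hX₀⟩ := Pool.Agent.H912.DY.sieve_pole2 (ι := (Fin (d + 1) × Fin 2) × Fin 2) ω
    (k₀ := (((0 : Fin (d + 1)), (0 : Fin 2)), (1 : Fin 2)))
    (k1 := ((Fin.last d, (0 : Fin 2)), (0 : Fin 2)))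
    (k2 := ((Fin.last d, (0 : Fin 2)), (1 : Fin 2)))
    (k3 := ((Fin.last d, (1 : Fin 2)), (0 : Fin 2)))
    (k4 := ((Fin.last d, (1 : Fin 2)), (1 : Fin 2)))
    (by simp) (by simp) (by simp) (by simp) (by simp) s ht0 Y hε2
  obtain ⟨X₁, hX₁⟩ := Pool.Agent.H912.DY.sieve_pole (ι := (Fin (d + 1) × Fin 2) × Fin 2) ω
    ((Fin.last d, (0 : Fin 2)), (1 : Fin 2)) hε2
  refine ⟨max X₀ X₁, fun X hXX => ?_⟩
  have h0 := hX₀ X ((le_max_left _ _).trans hXX)
  have h1 := hX₁ X ((le_max_right _ _).trans hXX)
  set bad0 : Set ((Fin (d + 1) × Fin 2) × Fin 2 → 𝓞 K) :=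
    {a | a ∈ Pool.Agent.H912.DY.box ω ((Fin (d + 1) × Fin 2) × Fin 2) X ∧
        ¬ ∃ (v : HeightOneSpectrum (𝓞 K)) (p : ℕ), p.Prime ∧ Y ≤ p ∧
        v.valuation K (p : K) < 1 ∧ Pool.Agent.H912.DY.SimplePole
          (((0 : Fin (d + 1)), (0 : Fin 2)), (1 : Fin 2)) a v ∧ t ∉ v.asIdeal ∧
        t * a ((Fin.last d, (0 : Fin 2)), (0 : Fin 2)) *
            a ((Fin.last d, (1 : Fin 2)), (1 : Fin 2)) -
          s * a ((Fin.last d, (0 : Fin 2)), (1 : Fin 2)) *
            a ((Fin.last d, (1 : Fin 2)), (0 : Fin 2)) ∉ v.asIdeal} with hbad0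
  set bad1 : Set ((Fin (d + 1) × Fin 2) × Fin 2 → 𝓞 K) :=
    {a | a ∈ Pool.Agent.H912.DY.box ω ((Fin (d + 1) × Fin 2) × Fin 2) X ∧
        ¬ ∃ v : HeightOneSpectrum (𝓞 K), Pool.Agent.H912.DY.SimplePole
          ((Fin.last d, (0 : Fin 2)), (1 : Fin 2)) a v} with hbad1
  have hsub : {c | c ∈ Pool.Agent.H912.DY.box ω ((Fin (d + 1) × Fin 2) × Fin 2) X ∧
      c ∉ {c | IsMap c ∧ (∀ α' : K, EventuallyStable d (poly c 0) (poly c 1) α') ∧
        Stable d (poly c 0) (poly c 1) α ∧
        StableForMost Y d (poly c 0) (poly c 1)}} ⊆ bad0 ∪ bad1 := by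
    rintro c ⟨hc, hc'⟩
    by_contra hcon
    rw [Set.mem_union, not_or] at hcon
    obtain ⟨v, l, hl, hlY, hlv, hv, htv, hgv⟩ : ∃ (v : HeightOneSpectrum (𝓞 K)) (p : ℕ),
        p.Prime ∧ Y ≤ p ∧
        v.valuation K (p : K) < 1 ∧ Pool.Agent.H912.DY.SimplePole
          (((0 : Fin (d + 1)), (0 : Fin 2)), (1 : Fin 2)) c v ∧ t ∉ v.asIdeal ∧
        t * c ((Fin.last d, (0 : Fin 2)), (0 : Fin 2)) *
            c ((Fin.last d, (1 : Fin 2)), (1 : Fin 2)) -
          s * c ((Fin.last d, (0 : Fin 2)), (1 : Fin 2)) *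
            c ((Fin.last d, (1 : Fin 2)), (0 : Fin 2)) ∉ v.asIdeal := by
      by_contra h
      exact hcon.1 ⟨hc, h⟩
    obtain ⟨v', hv'⟩ : ∃ v' : HeightOneSpectrum (𝓞 K), Pool.Agent.H912.DY.SimplePole
        ((Fin.last d, (0 : Fin 2)), (1 : Fin 2)) c v' := by
      by_contra h
      exact hcon.2 ⟨hc, h⟩
    obtain ⟨h2, h3⟩ := of_pole hv
    obtain ⟨-, h4⟩ := of_pole hv'
    rw [Fin.val_zero] at h3
    rw [Fin.val_last] at h4
    have hu : ∀ k : (Fin (d + 1) × Fin 2) × Fin 2,
        k ≠ (((0 : Fin (d + 1)), (0 : Fin 2)), (1 : Fin 2)) →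
        v.valuation K (algebraMap (𝓞 K) K (c k)) = 1 := fun k hk =>
      Pool.Agent.H912.DY.val_unit v (hv.2.2 k hk)
    have hne : ∀ k : (Fin (d + 1) × Fin 2) × Fin 2,
        k ≠ (((0 : Fin (d + 1)), (0 : Fin 2)), (1 : Fin 2)) →
        algebraMap (𝓞 K) K (c k) ≠ 0 := fun k hk h0 => by
      have := hu k hk
      rw [h0, map_zero] at this
      exact zero_ne_one this
    have ht1 := Pool.Agent.H912.DY.val_unit v htv
    have ht1' : algebraMap (𝓞 K) K t ≠ 0 := by
      intro h0
      rw [h0, map_zero] at ht1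
      exact zero_ne_one ht1
    have hg1 := Pool.Agent.H912.DY.val_unit v hgv
    have hα1 : v.valuation K α ≤ 1 := by
      rw [← hst, map_div₀, ht1, div_one]
      exact HeightOneSpectrum.valuation_le_one v s
    have hα2 : v.valuation K ((poly c 0).coeff d - α * (poly c 1).coeff d) = 1 := by
      have e0 := coeff_poly c 0 (Fin.last d)
      have e1 := coeff_poly c 1 (Fin.last d)
      rw [Fin.val_last] at e0 e1
      have k2 := hne ((Fin.last d, (0 : Fin 2)), (1 : Fin 2)) (by simp; omega)
      have k4 := hne ((Fin.last d, (1 : Fin 2)), (1 : Fin 2)) (by simp)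
      have e2 : (poly c 0).coeff d - α * (poly c 1).coeff d = algebraMap (𝓞 K) K
          (t * c ((Fin.last d, (0 : Fin 2)), (0 : Fin 2)) *
            c ((Fin.last d, (1 : Fin 2)), (1 : Fin 2)) -
          s * c ((Fin.last d, (0 : Fin 2)), (1 : Fin 2)) *
            c ((Fin.last d, (1 : Fin 2)), (0 : Fin 2))) /
          (algebraMap (𝓞 K) K t * (algebraMap (𝓞 K) K
            (c ((Fin.last d, (0 : Fin 2)), (1 : Fin 2))) * algebraMap (𝓞 K) K
            (c ((Fin.last d, (1 : Fin 2)), (1 : Fin 2))))) := by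
        rw [e0, e1, ← hst]
        unfold coef
        rw [map_sub, map_mul, map_mul, map_mul, map_mul]
        field_simp
      rw [e2, map_div₀, hg1, map_mul, map_mul, ht1,
        hu ((Fin.last d, (0 : Fin 2)), (1 : Fin 2)) (by simp; omega),
        hu ((Fin.last d, (1 : Fin 2)), (1 : Fin 2)) (by simp), mul_one, mul_one, div_one]
    apply hc'
    refine ⟨⟨h2, h3.coprime (by omega), ?_⟩, fun α' => ?_, stable_of_pole hd h3 hα1 hα2,
      stableForMost_of_pole hd hl hlY hlv h3⟩
    · rw [h3.natDegree_q]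
      exact max_eq_right h3.hp
    · obtain ⟨B, hB⟩ := h3.eventually h4 hd α'
      refine ⟨B, fun n => ?_⟩
      rw [iter_eq]
      exact hB n
  have hfin : (bad0 ∪ bad1).Finite :=
    ((Pool.Agent.H912.DY.finite_box ω X).subset fun a ha => ha.1).union
      ((Pool.Agent.H912.DY.finite_box ω X).subset fun a ha => ha.1)
  have h2 := (Set.ncard_le_ncard hsub hfin).trans (Set.ncard_union_le _ _)
  have h3 : ({c | c ∈ Pool.Agent.H912.DY.box ω ((Fin (d + 1) × Fin 2) × Fin 2) X ∧
      c ∉ {c | IsMap c ∧ (∀ α' : K, EventuallyStable d (poly c 0) (poly c 1) α') ∧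
        Stable d (poly c 0) (poly c 1) α ∧
        StableForMost Y d (poly c 0) (poly c 1)}}.ncard : ℝ) ≤
      (bad0.ncard : ℝ) + (bad1.ncard : ℝ) := by exact_mod_cast h2
  calc _ ≤ (bad0.ncard : ℝ) + (bad1.ncard : ℝ) := h3
    _ ≤ _ := by linarith

end Pool.Agent.Results.MP_870eb4_nt.StableMaps
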